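import Mathlib
import Pool.Agent.Lib.MP_4cba3d_ag.Defs
import Pool.Agent.Lib.MP_4cba3d_ag.LowMain

/-!
A lower bound for the number of simple positive solutions of bivariate fewnomial systems:
`4 * (m + t - 5) ≤ N m t` for `3 ≤ m ≤ 6` and all `t ≥ 3`, that is `4 * (t - 2) ≤ N 3 t`,
`4 * (t - 1) ≤ N 4 t`, `4 * t ≤ N 5 t` and `4 * (t + 1) ≤ N 6 t`.
-/

namespace Pool.Agent.Results.MP_4cba3d_ag.LowerBound

open Fewnomial

lemma of_coprime (m t a b : ℕ) (ha : 1 ≤ a) (hb : 1 ≤ b) (h : Nat.Coprime a b)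
    (hm : a / 2 + 3 = m) (ht : b / 2 + 3 = t) : ((4 * (m + t - 5) : ℕ) : ℕ∞) ≤ N m t := by
  subst hm
  subst ht
  have h1 := Fewnomial.Low.main a b ha hb h
  have h2 : 4 * (a / 2 + 3 + (b / 2 + 3) - 5) = 4 * (a / 2 + b / 2 + 1) := by omega
  rw [h2]
  exact h1

theorem result (m t : ℕ) (hm : 3 ≤ m) (hm' : m ≤ 6) (ht : 3 ≤ t) :
    ((4 * (m + t - 5) : ℕ) : ℕ∞) ≤ N m t := by
  obtain ⟨n, rfl⟩ := Nat.exists_eq_add_of_le ht
  -- for odd primes `a`, one of `2 n`, `2 n + 1` is not a multiple of `a`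
  have key : ∀ a : ℕ, a.Prime → 2 < a → a / 2 + 3 = m →
      ((4 * (m + (3 + n) - 5) : ℕ) : ℕ∞) ≤ N m (3 + n) := by
    intro a hp h2 ham
    by_cases hd : a ∣ 2 * n + 1
    · have hn : 1 ≤ n := by
        by_contra hn
        have : n = 0 := by omega
        rw [this] at hd
        have := Nat.le_of_dvd (by norm_num) hd
        omega
      apply of_coprime m (3 + n) a (2 * n) (by omega) (by omega) _ ham (by omega)
      rw [Nat.Prime.coprime_iff_not_dvd hp]
      intro hd'
      have h3 := (Nat.dvd_add_right hd').1 hd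
      have := Nat.le_of_dvd one_pos h3
      omega
    · exact of_coprime m (3 + n) a (2 * n + 1) (by omega) (by omega)
        ((Nat.Prime.coprime_iff_not_dvd hp).2 hd) ham (by omega)
  have hcases : m = 3 ∨ m = 4 ∨ m = 5 ∨ m = 6 := by omega
  rcases hcases with rfl | rfl | rfl | rfl
  · exact of_coprime 3 (3 + n) 1 (2 * n + 1) le_rfl (by omega) (Nat.coprime_one_left _)
      (by norm_num) (by omega)
  · exact key 3 (by norm_num) (by norm_num) (by norm_num)
  · exact key 5 (by norm_num) (by norm_num) (by norm_num)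
  · exact key 7 (by norm_num) (by norm_num) (by norm_num)

end Pool.Agent.Results.MP_4cba3d_ag.LowerBound
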