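import Mathlib
import Pool.Agent.Lib.MP_4cba3d_ag.Defs
import Pool.Agent.Lib.FewSnake.Main

/-!
A lower bound for the number of simple positive solutions of bivariate fewnomial systems:
`N m t ≥ 2 (m - 1) (t + 4 - 2 m)` for every odd `m ≥ 3` and every `t`, which for large `t / m` is
close to twice Kouchnirenko's number `(m - 1) (t - 1)`.
-/

namespace Pool.Agent.Results.MP_4cba3d_ag.TwiceKouchnirenko

open MvPolynomial Fewnomial

lemma positiveSimple_comm (f g : MvPolynomial (Fin 2) ℝ) :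
    positiveSimple f g = positiveSimple g f := by
  have key : ∀ (f g : MvPolynomial (Fin 2) ℝ) (p : Fin 2 → ℝ), p ∈ positiveSimple f g →
      p ∈ positiveSimple g f := by
    rintro f g p ⟨h0, h1, hf, hg, hJ⟩
    refine ⟨h0, h1, hg, hf, fun h => hJ ?_⟩
    have e : pderiv 0 f * pderiv 1 g - pderiv 1 f * pderiv 0 g =
        -(pderiv 0 g * pderiv 1 f - pderiv 1 g * pderiv 0 f) := by ring
    rw [e, map_neg, h, neg_zero]
  exact Set.Subset.antisymm (fun p hp => key f g p hp) (fun p hp => key g f p hp)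

lemma N_comm (a b : ℕ) : N a b = N b a := by
  unfold N
  apply le_antisymm
  · refine iSup_le fun f => iSup_le fun g => iSup_le fun hf => iSup_le fun hg => ?_
    rw [positiveSimple_comm]
    exact le_iSup_of_le g (le_iSup_of_le f (le_iSup_of_le hg (le_iSup_of_le hf le_rfl)))
  · refine iSup_le fun f => iSup_le fun g => iSup_le fun hf => iSup_le fun hg => ?_
    rw [positiveSimple_comm]
    exact le_iSup_of_le g (le_iSup_of_le f (le_iSup_of_le hg (le_iSup_of_le hf le_rfl)))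

lemma general (k m t : ℕ) (h : 2 * k + 1 ≤ m) :
    ((4 * k * (t + 2 - 4 * k) : ℕ) : ℕ∞) ≤ N m t := by
  rcases Nat.eq_zero_or_pos k with rfl | hk
  · simp
  rcases Nat.eq_zero_or_pos (t + 2 - 4 * k) with h0 | hn
  · rw [h0]; simp
  obtain ⟨e, rfl⟩ := Nat.exists_eq_add_of_le h
  obtain ⟨n, hn1⟩ : ∃ n, n = t + 2 - 4 * k := ⟨_, rfl⟩
  have ht : t = n + 4 * k - 2 := by omega
  rw [← hn1, ht]
  exact Snake.main k n e hk (by omega)

/-- Let `N m t` be the supremum of the numbers of simple positive solutions of the systems of two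
real polynomials in two variables with exactly `m` and `t` monomials.
(1) `N m t` and `N t m` are at least `4 k (t + 2 - 4 k)` whenever `m ≥ 2 k + 1`.
(2) For odd `m ≥ 3`: `N m t ≥ 2 (m - 1) (t + 4 - 2 m)`.
(3) For odd `m ≥ 3` and `t ≥ 4 m - 8`: `N m t > (m - 1) (t - 1)`. -/
theorem result :
    (∀ k m t : ℕ, 2 * k + 1 ≤ m →
      ((4 * k * (t + 2 - 4 * k) : ℕ) : ℕ∞) ≤ N m t ∧
        ((4 * k * (t + 2 - 4 * k) : ℕ) : ℕ∞) ≤ N t m) ∧
    (∀ m t : ℕ, Odd m → 3 ≤ m → ((2 * (m - 1) * (t + 4 - 2 * m) : ℕ) : ℕ∞) ≤ N m t) ∧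
    (∀ m t : ℕ, Odd m → 3 ≤ m → 4 * m - 8 ≤ t → (((m - 1) * (t - 1) : ℕ) : ℕ∞) < N m t) := by
  have h2 : ∀ m t : ℕ, Odd m → 3 ≤ m →
      ((2 * (m - 1) * (t + 4 - 2 * m) : ℕ) : ℕ∞) ≤ N m t := by
    rintro m t ⟨k, rfl⟩ hm
    have h := general k (2 * k + 1) t le_rfl
    have e1 : 2 * (2 * k + 1 - 1) = 4 * k := by omega
    have e2 : t + 4 - 2 * (2 * k + 1) = t + 2 - 4 * k := by omega
    rwa [e1, e2]
  refine ⟨fun k m t h => ⟨general k m t h, ?_⟩, h2, ?_⟩
  · rw [N_comm]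
    exact general k m t h
  · intro m t hodd hm ht
    refine lt_of_lt_of_le ?_ (h2 m t hodd hm)
    rw [Nat.cast_lt]
    obtain ⟨a, rfl⟩ : ∃ a, m = a + 3 := ⟨m - 3, by omega⟩
    obtain ⟨c, rfl⟩ : ∃ c, t = c + 4 * a + 4 := ⟨t - (4 * a + 4), by omega⟩
    have e1 : a + 3 - 1 = a + 2 := by omega
    have e2 : c + 4 * a + 4 + 4 - 2 * (a + 3) = c + 2 * a + 2 := by omega
    have e3 : c + 4 * a + 4 - 1 = c + 4 * a + 3 := by omega
    rw [e1, e2, e3, mul_comm 2 (a + 2), mul_assoc]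
    apply Nat.mul_lt_mul_of_pos_left _ (by omega)
    omega

end Pool.Agent.Results.MP_4cba3d_ag.TwiceKouchnirenko
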