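import Mathlib
import Pool.Agent.Lib.MP_4cba3d_ag.Defs
import Pool.Agent.Lib.MP_4cba3d_ag.LTransfer

/-!
An upper bound for the number of simple positive solutions of bivariate fewnomial systems which is
polynomial, of degree `2 * a - 3`, in the number `b` of monomials of one equation when the number
`a` of monomials of the other one is fixed.
-/

namespace Pool.Agent.Results.MP_4cba3d_ag.UpperBound

open MvPolynomial Fewnomial

lemma positiveSimple_comm (f g : MvPolynomial (Fin 2) ℝ) :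
    positiveSimple f g = positiveSimple g f := by
  have key : ∀ (f g : MvPolynomial (Fin 2) ℝ) (p : Fin 2 → ℝ), p ∈ positiveSimple f g →
      p ∈ positiveSimple g f := by
    rintro f g p ⟨h0, h1, hf, hg, hJ⟩
    refine ⟨h0, h1, hg, hf, fun h => hJ ?_⟩
    have e : pderiv 0 f * pderiv 1 g - pderiv 1 f * pderiv 0 g =
        -(pderiv 0 g * pderiv 1 f - pderiv 1 g * pderiv 0 f) := by ring
    rw [e, map_neg, h, neg_zero]
  exact Set.Subset.antisymm (fun p hp => key f g p hp) (fun p hp => key g f p hp)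

lemma N_comm (a b : ℕ) : N a b = N b a := by
  unfold N
  apply le_antisymm
  · refine iSup_le fun f => iSup_le fun g => iSup_le fun hf => iSup_le fun hg => ?_
    rw [positiveSimple_comm]
    exact le_iSup_of_le g (le_iSup_of_le f (le_iSup_of_le hg (le_iSup_of_le hf le_rfl)))
  · refine iSup_le fun f => iSup_le fun g => iSup_le fun hf => iSup_le fun hg => ?_
    rw [positiveSimple_comm]
    exact le_iSup_of_le g (le_iSup_of_le f (le_iSup_of_le hg (le_iSup_of_le hf le_rfl)))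

lemma numeric (n t : ℕ) (ht : 1 ≤ t) :
    2 ^ n * (2 * (t + 1) * (((n + 5) * ((t + 1) * t / 2)) * (n + 3) *
      (((n + 5) * ((t + 1) * t / 2)) + (n + 4)) ^ n * 2 ^ (n.choose 2))) ≤
    (n + 3) * (n + 5) ^ (n + 1) * 2 ^ (n.choose 2) * (t + 1) ^ (2 * n + 3) := by
  obtain ⟨c, hc⟩ : 2 ∣ (t + 1) * t := by
    rw [mul_comm]
    exact (Nat.even_mul_succ_self t).two_dvd
  have hc1 : (t + 1) * t / 2 = c := by omega
  rw [hc1]
  have h1 : 2 * ((n + 5) * c) = (n + 5) * ((t + 1) * t) := by rw [hc]; ring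
  have hD : 2 * ((n + 5) * c) ≤ (n + 5) * (t + 1) ^ 2 := by
    rw [h1]
    apply Nat.mul_le_mul_left
    nlinarith
  have hD7 : 2 * ((n + 5) * c + (n + 4)) ≤ (n + 5) * (t + 1) ^ 2 := by
    rw [mul_add, h1]
    have h2 : (n + 5) * (t + 1) ^ 2 = (n + 5) * ((t + 1) * t) + (n + 5) * (t + 1) := by ring
    rw [h2]
    have h3 : (n + 5) * 2 ≤ (n + 5) * (t + 1) := Nat.mul_le_mul_left _ (by omega)
    omega
  calc 2 ^ n * (2 * (t + 1) * (((n + 5) * c) * (n + 3) *
      (((n + 5) * c) + (n + 4)) ^ n * 2 ^ (n.choose 2)))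
      = (n + 3) * (t + 1) * (2 * ((n + 5) * c)) * (2 * ((n + 5) * c + (n + 4))) ^ n *
        2 ^ (n.choose 2) := by
        rw [mul_pow]
        ring
    _ ≤ (n + 3) * (t + 1) * ((n + 5) * (t + 1) ^ 2) * ((n + 5) * (t + 1) ^ 2) ^ n *
        2 ^ (n.choose 2) := by
        gcongr
    _ = (n + 3) * (n + 5) ^ (n + 1) * 2 ^ (n.choose 2) * (t + 1) ^ (2 * n + 3) := by
        rw [mul_pow, ← pow_mul (t + 1) 2 n]
        ring

lemma N_le (n t : ℕ) (ht : 1 ≤ t) :
    N (n + 3) (t + 1) ≤ ((2 * (t + 1) * (((n + 5) * ((t + 1) * t / 2)) * (n + 3) *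
      (((n + 5) * ((t + 1) * t / 2)) + (n + 4)) ^ n * 2 ^ (n.choose 2)) : ℕ) : ℕ∞) := by
  set K := 2 * (t + 1) * (((n + 5) * ((t + 1) * t / 2)) * (n + 3) *
      (((n + 5) * ((t + 1) * t / 2)) + (n + 4)) ^ n * 2 ^ (n.choose 2)) with hK
  refine iSup_le fun f => iSup_le fun g => iSup_le fun hf => iSup_le fun hg => ?_
  by_contra hcon
  push Not at hcon
  obtain ⟨Z, hZ1, hZ2⟩ := Set.exists_subset_encard_eq (Order.add_one_le_of_lt hcon)
  have hfin : Z.Finite := by
    apply Set.finite_of_encard_eq_coe (k := K + 1)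
    rw [hZ2]
    norm_cast
  have h1 := transfer2 f g hf hg ((n + 5) * ((t + 1) * t / 2)) (by
    have h2 : 1 ≤ (t + 1) * t / 2 := by
      have h3 : 2 * 1 ≤ (t + 1) * t := Nat.mul_le_mul (by omega) (by omega)
      omega
    exact Nat.mul_pos (by omega) h2) le_rfl hfin.toFinset
      (fun z hz => hZ1 ((Set.Finite.mem_toFinset hfin).mp hz))
  rw [hfin.encard_eq_coe_toFinset_card] at hZ2
  have h3 : hfin.toFinset.card = K + 1 := by exact_mod_cast hZ2
  rw [h3, ← hK] at h1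
  omega

/-- The number of simple positive solutions of a bivariate system with `a ≥ 3` and `b ≥ 2`
monomials is at most `a * (a + 2) ^ (a - 2) * 2 ^ (choose (a - 3) 2) * b ^ (2 * a - 3)` divided by
`2 ^ (a - 3)`. -/
theorem result (a b : ℕ) (ha : 3 ≤ a) (hb : 2 ≤ b) :
    2 ^ (a - 3) * N a b ≤
        ((a * (a + 2) ^ (a - 2) * 2 ^ ((a - 3).choose 2) * b ^ (2 * a - 3) : ℕ) : ℕ∞) ∧
      2 ^ (a - 3) * N b a ≤
        ((a * (a + 2) ^ (a - 2) * 2 ^ ((a - 3).choose 2) * b ^ (2 * a - 3) : ℕ) : ℕ∞) := by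
  have key : 2 ^ (a - 3) * N a b ≤
        ((a * (a + 2) ^ (a - 2) * 2 ^ ((a - 3).choose 2) * b ^ (2 * a - 3) : ℕ) : ℕ∞) := by
    obtain ⟨n, rfl⟩ := Nat.exists_eq_add_of_le' ha
    obtain ⟨t, rfl⟩ := Nat.exists_eq_add_of_le' (show 1 ≤ b by omega)
    have e1 : n + 3 - 3 = n := by omega
    have e2 : n + 3 - 2 = n + 1 := by omega
    have e3 : 2 * (n + 3) - 3 = 2 * n + 3 := by omega
    have e4 : n + 3 + 2 = n + 5 := by omega
    rw [e1, e2, e3, e4]
    calc 2 ^ n * N (n + 3) (t + 1)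
        ≤ 2 ^ n * ((2 * (t + 1) * (((n + 5) * ((t + 1) * t / 2)) * (n + 3) *
          (((n + 5) * ((t + 1) * t / 2)) + (n + 4)) ^ n * 2 ^ (n.choose 2)) : ℕ) : ℕ∞) :=
          mul_le_mul_right (N_le n t (by omega)) _
      _ = ((2 ^ n * (2 * (t + 1) * (((n + 5) * ((t + 1) * t / 2)) * (n + 3) *
          (((n + 5) * ((t + 1) * t / 2)) + (n + 4)) ^ n * 2 ^ (n.choose 2))) : ℕ) : ℕ∞) := by
          push_cast
          rfl
      _ ≤ _ := by exact_mod_cast numeric n t (by omega)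
  exact ⟨key, by rw [N_comm]; exact key⟩

end Pool.Agent.Results.MP_4cba3d_ag.UpperBound
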